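import Pool.Agent.V11248.Sq.Ninety
import Pool.Agent.V11248.Sq.Nine
import Pool.Agent.H631R2.Cohen

/-!
# MP_90fc86_lc: the Ostaszewski square at `ω₁` does not imply `ω₁ ^ (< ω₁) = ω₁`

We force the Ostaszewski square at `ω₁` together with the failure of the continuum hypothesis.
-/

namespace Pool.Agent.Results.MP_90fc86_lc.FailsAtOmegaOne

open Cardinal Pool.Agent.Helper669.Forcing Pool.Agent.V11248.Sq Pool.Agent.V11248.OS

/-- The first uncountable cardinal. -/
noncomputable abbrev aleph1 : Cardinal.{0} := Order.succ ℵ₀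

/-- The second uncountable cardinal. -/
noncomputable abbrev aleph2 : Cardinal.{0} := Order.succ aleph1

/-- Every condition of `P` forces: the first two uncountable cardinals of the ground model are
regular cardinals (so they are still the first two uncountable cardinals), the Ostaszewski square
holds at the first uncountable cardinal `ω₁`, and no map from `ω₁` is onto the power set of `ω`
(that is, `2 ^ ω > ω₁`; in particular `ω₁ ^ (< ω₁) > ω₁`). -/
def ForcesSquareWithoutCH (P : Type) [Preorder P] : Prop :=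
  ∀ p : P, p ∈ StaysRegular P aleph1 ∧ p ∈ StaysRegular P aleph2 ∧
    p ∈ OSquare P aleph2.ord.ToType aleph1.ord.ToType ∧
    p ∈ fnot (PowLe P aleph1.ord.ToType ℕ)

section

variable {K L : Type} [LinearOrder K] [LinearOrder L] [WellFoundedLT K] [WellFoundedLT L]

theorem cc_cohen (hL : ℵ₀ < #L) (I : Type) : CC L (H631R2.Cond I) := by
  intro q hq
  have hinj : Function.Injective q := by
    intro i j hij
    by_contra hne
    exact hq i j hne (q i) le_rfl (by rw [hij])
  have h1 : #(Set.range q) ≤ ℵ₀ := by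
    refine H631R2.Cond.ccc _ ?_
    rintro _ ⟨i, rfl⟩ _ ⟨j, rfl⟩ hij ⟨r, hr1, hr2⟩
    exact hq i j (fun h => hij (by rw [h])) r hr1 hr2
  rw [mk_range_eq q hinj] at h1
  exact absurd hL (not_lt.2 h1)

/-- There are many new reals. -/
theorem not_powLe_nat {lam : Cardinal.{0}} (S : Setup lam K L) (hL : ℵ₀ < #L) {N : Type}
    (p : Cond K L N × H631R2.Cond (K × ℕ)) :
    p ∈ fnot (PowLe (Cond K L N × H631R2.Cond (K × ℕ)) L ℕ) := by
  classical
  intro q _ hq
  obtain ⟨p0, _, E, hE⟩ := mem_fex.1 hq q le_rfl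
  let x : K → ℕ → Set (Cond K L N × H631R2.Cond (K × ℕ)) := fun j n => {p | ((j, n), true) ∈ p.2.s}
  let T : L → K → Set (Cond K L N × H631R2.Cond (K × ℕ)) := fun i j => fall fun n : ℕ =>
    fand (fimp (meets (x j n)) (meets (E i n))) (fimp (meets (E i n)) (meets (x j n)))
  have hT : ∀ i j, Down (T i j) := fun i j =>
    down_fall fun _ => down_fand (down_fimp _ _) (down_fimp _ _)
  let Φ : L → Option K → Set (Cond K L N × H631R2.Cond (K × ℕ)) := fun i v =>
    match v with
    | some j => T i j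
    | none => fall fun j => fnot (T i j)
  have hΦ : ∀ i v, Down (Φ i v) := by
    intro i v
    cases v with
    | some j => exact hT i j
    | none => exact down_fall fun _ => down_fnot _
  obtain ⟨s, hs, B, hB1, hB2⟩ := exists_approx S (cc_cohen hL (K × ℕ)) none p0 Φ hΦ (by
    intro i p _
    by_cases h : ∃ p' ≤ p, ∃ j, p' ∈ T i j
    · obtain ⟨p', hp', j, hj⟩ := h
      exact ⟨p', hp', some j, hj⟩
    · push Not at h
      exact ⟨p, le_rfl, none, fun j q hq hq' => h q hq j hq'⟩)
  -- a real which is not among the possible values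
  obtain ⟨j, hj⟩ : ∃ j : K, ∀ i, some j ∉ B i := by
    obtain ⟨b, hb⟩ := S.bddK (⋃ i, {j | some j ∈ B i}) (by
      refine (mk_iUnion_le _).trans ?_
      refine (mul_le_mul' S.cardL.le (ciSup_le' fun i => ?_)).trans (mul_eq_self S.unc.le).le
      refine le_trans ?_ (hB1 i).le
      exact mk_le_of_injective (f := fun j : {j | some j ∈ B i} => (⟨some j.1, j.2⟩ : B i))
        fun a b hab => Subtype.ext (by simpa using hab))
    exact ⟨b, fun i hi => lt_irrefl b (hb b (Set.mem_iUnion.2 ⟨i, hi⟩))⟩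
  have hsp : ((s, p0.2) : Cond K L N × H631R2.Cond (K × ℕ)) ≤ p0 := ⟨hs, le_rfl⟩
  obtain ⟨r, hr, i, hri⟩ := mem_fex.1 (hE (x j)) (s, p0.2) hsp
  have hri' : r ∈ T i j := hri
  obtain ⟨r1, hr1, v, hv, h1⟩ := hB2 i r hr
  cases v with
  | none => exact h1 j r1 le_rfl (hT i j _ hri' _ hr1)
  | some j' =>
    have hjj : j' ≠ j := by
      rintro rfl
      exact hj i hv
    have h2 : r1 ∈ T i j := hT i j _ hri' _ hr1
    have h3 : r1 ∈ T i j' := h1
    -- a coordinate outside of the domain
    obtain ⟨n, hn1, hn2⟩ : ∃ n : ℕ, (j, n) ∉ r1.2.dom ∧ (j', n) ∉ r1.2.dom := by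
      by_contra hcon
      push Not at hcon
      have hfin : (Set.univ : Set ℕ).Finite := by
        refine (r1.2.dom_finite.image Prod.snd).subset fun n _ => ?_
        by_cases h : (j, n) ∈ r1.2.dom
        · exact ⟨(j, n), h, rfl⟩
        · exact ⟨(j', n), hcon n h, rfl⟩
      exact Set.infinite_univ hfin
    obtain ⟨c1, hc1, hc2, hc3⟩ := H631R2.Cond.exists_ext r1.2 hn1 true
    obtain ⟨c2, hc4, hc5, _⟩ := H631R2.Cond.exists_ext c1 (i := (j', n)) (by
      intro h
      obtain ⟨b, hb⟩ := H631R2.Cond.mem_dom.1 h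
      rcases hc3 _ hb with h4 | h4
      · exact hjj (by simpa using congrArg (fun x => x.1.1) h4)
      · exact hn2 (H631R2.Cond.mem_dom.2 ⟨b, h4⟩)) false
    let q0 : Cond K L N × H631R2.Cond (K × ℕ) := (r1.1, c2)
    have hq0 : q0 ≤ r1 := ⟨le_rfl, hc4.trans hc1⟩
    have hx0 : q0 ∈ meets (x j n) := meets_of_mem (show ((j, n), true) ∈ c2.s from hc4 hc2)
    obtain ⟨q1, hq1, hq1'⟩ := mem_fimp.1 (h2 n).1 q0 hq0 hx0
    obtain ⟨q2, hq2, hq2'⟩ := mem_fimp.1 (h3 n).2 q1 (hq1.trans hq0) hq1'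
    obtain ⟨q3, hq3, q4, hq4, hq34⟩ := hq2' q2 le_rfl
    have h5 : ((j', n), true) ∈ q3.2.s := hq34.2 hq4
    have h6 : ((j', n), false) ∈ q3.2.s := (hq3.trans (hq2.trans hq1)).2 hc5
    exact q3.2.fn _ h5 h6

end

/-- The Ostaszewski square at the successor cardinal `λ = ω₁` does not imply
`λ ^ (< λ) = λ`: some forcing notion preserving `ω₁` and `ω₂` forces the Ostaszewski square
at `ω₁` together with `2 ^ ω > ω₁`. -/
theorem result : ∃ (P : Type) (_ : Preorder P), Nonempty P ∧ ForcesSquareWithoutCH P := by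
  have hreg : aleph1.IsRegular := isRegular_succ le_rfl
  have hunc : ℵ₀ < aleph1 := Order.lt_succ _
  have S := setup_of hreg hunc
  let K : Type := aleph2.ord.ToType
  let L : Type := aleph1.ord.ToType
  let Q : Type := H631R2.Cond (K × ℕ)
  have hL : ℵ₀ < #L := by
    simp only [L]
    rw [mk_ord_toType]
    exact hunc
  have hcc : CC L Q := cc_cohen hL _
  let P : Type := Cond K L (QName K Q) × Q
  refine ⟨P, inferInstance, ?_, fun p => ⟨?_, ?_, ?_, ?_⟩⟩
  · obtain ⟨a⟩ : Nonempty K := by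
      refine mk_ne_zero_iff.1 ?_
      simp only [K]
      rw [mk_ord_toType]
      exact (Order.bot_lt_succ _).ne'
    obtain ⟨C, hC⟩ := exists_sq S a
    let N0 : QName K Q := ⟨fun v => {_q | v = a}, fun q => ⟨q, le_rfl, a, rfl⟩,
      fun q v v' h h' => h.trans h'.symm, fun v q h _ _ => h⟩
    exact ⟨(⟨a, C, fun _ => N0, hC⟩, ⟨∅, fun i hi => absurd hi (Finset.notMem_empty _)⟩)⟩
  · intro ν hν R
    exact regular_L' S hcc (by rwa [mk_out]) R p
  · intro ν hν R
    exact regular_K' S hcc (by rw [mk_out]; exact Order.le_of_lt_succ hν) R p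
  · exact mem_fex_of_mem DN (down_fand (down_SquareSeq _) (down_Guess _))
      ⟨squareSeq_DN S p, guess_DN S hcc p⟩
  · exact not_powLe_nat S hL p

end Pool.Agent.Results.MP_90fc86_lc.FailsAtOmegaOne
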